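import Pool.Agent.Y666.SP.Stm

/-!
# Project SP: the final theorem from RED, ZAG and RAM
-/

set_option autoImplicit false

namespace Pool.Agent.Y666.SP

/-- a spine of the subtype gives a spine of the set -/
theorem spine_of_sub {α : Type} [PartialOrder α] (S : Set α)
    (h : HasSpine (Set.univ : Set S)) : HasSpine S := by
  classical
  obtain ⟨C, -, hC, f, hf1, hf2, hf3⟩ := h
  refine ⟨Subtype.val '' C, ?_, ?_, fun x => if h : x ∈ S then (f ⟨x, h⟩).1 else x, ?_, ?_, ?_⟩
  · rintro _ ⟨c, _, rfl⟩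
    exact c.2
  · rintro _ ⟨a, ha, rfl⟩ _ ⟨b, hb, rfl⟩ hab
    exact hC ha hb (fun h => hab (by rw [h]))
  · intro x hx
    simp only [hx, dif_pos]
    exact ⟨f ⟨x, hx⟩, hf1 _ (Set.mem_univ _), rfl⟩
  · rintro _ ⟨c, hc, rfl⟩
    have : (c : α) ∈ S := c.2
    simp only [this, dif_pos]
    have h1 : f ⟨(c : α), this⟩ = c := hf2 c hc
    rw [h1]
  · intro x hx y hy hxy
    simp only [hx, hy, dif_pos] at hxy
    have := hf3 ⟨x, hx⟩ (Set.mem_univ _) ⟨y, hy⟩ (Set.mem_univ _) (Subtype.ext hxy)
    exact this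

/-- a spine of the dual order gives a spine -/
theorem spine_of_dual {β : Type} [PartialOrder β]
    (h : HasSpine (Set.univ : Set (OrderDual β))) : HasSpine (Set.univ : Set β) := by
  obtain ⟨C, -, hC, f, hf1, hf2, hf3⟩ := h
  refine ⟨{c : β | OrderDual.toDual c ∈ C}, Set.subset_univ _, ?_,
    fun x => OrderDual.ofDual (f (OrderDual.toDual x)), ?_, ?_, ?_⟩
  · intro a ha b hb hab
    have := hC ha hb (fun h => hab (OrderDual.toDual.injective h))
    rcases this with h | h
    · exact Or.inr h
    · exact Or.inl h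
  · intro x _
    exact hf1 (OrderDual.toDual x) (Set.mem_univ _)
  · intro c hc
    exact congrArg OrderDual.ofDual (hf2 (OrderDual.toDual c) hc)
  · intro x _ y _ hxy hlt
    refine hf3 (OrderDual.toDual y) (Set.mem_univ _) (OrderDual.toDual x) (Set.mem_univ _) ?_ ?_
    · exact (OrderDual.ofDual.injective hxy).symm
    · exact OrderDual.toDual_lt_toDual.2 hlt

theorem wd_sub {α : Type} [PartialOrder α] {w : ℕ} (hw : Wd α w) (S : Set α) : Wd S w := by
  classical
  intro s hs
  have h1 := hw (s.map (Function.Embedding.subtype _)) (by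
    intro a ha b hb hab hle
    simp only [Finset.coe_map, Set.mem_image, Finset.mem_coe] at ha hb
    obtain ⟨a', ha', rfl⟩ := ha
    obtain ⟨b', hb', rfl⟩ := hb
    exact hs ha' hb' (fun h => hab (by rw [h])) hle)
  rwa [Finset.card_map] at h1

theorem wd_dual {β : Type} [PartialOrder β] {w : ℕ} (hw : Wd β w) : Wd (OrderDual β) w := by
  classical
  intro s hs
  have h1 := hw (s.map OrderDual.ofDual.toEmbedding) (by
    intro a ha b hb hab hle
    simp only [Finset.coe_map, Set.mem_image, Finset.mem_coe] at ha hb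
    obtain ⟨a', ha', rfl⟩ := ha
    obtain ⟨b', hb', rfl⟩ := hb
    exact hs hb' ha' (fun h => hab (by rw [h])) hle)
  rwa [Finset.card_map] at h1

theorem t_MAIN (h1 : S_RED) (h2 : S_ZAG) (h3 : S_RAM) : S_MAIN := by
  intro α _ _ w hw
  refine h1 α w hw fun S hS => spine_of_sub S (spine_of_dual ?_)
  have hwS : Wd (OrderDual S) w := wd_dual (wd_sub hw S)
  have : Countable (OrderDual S) := inferInstanceAs (Countable S)
  refine h1 (OrderDual S) w hwS fun T hT => spine_of_sub T (h2 T fun x => ?_)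
  by_contra hinf
  have hinf' : {y : T | ¬ x ≤ y ∧ ¬ y ≤ x}.Infinite := hinf
  set e := hinf'.natEmbedding with he
  have hinj : Function.Injective (fun n => ((e n : {y : T | ¬ x ≤ y ∧ ¬ y ≤ x}) : T)) :=
    fun a b hab => e.injective (Subtype.ext hab)
  obtain ⟨g, hg, hmono | hanti⟩ := h3 T w (wd_sub hwS T) _ hinj
  · -- strictly increasing in the dual order
    have hs : StrictAnti (fun n => ((OrderDual.ofDual ((e (g n)).1.1) : S) : α)) := by
      intro a b hab
      have := hmono hab
      exact this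
    obtain ⟨n, hn⟩ := hS _ hs (fun n => (OrderDual.ofDual ((e (g n)).1.1) : S).2)
      ((OrderDual.ofDual x.1 : S) : α) (OrderDual.ofDual x.1 : S).2
    exact (e (g n)).2.1 hn
  · have hs : StrictAnti (fun n => ((e (g n)).1.1 : OrderDual S)) := by
      intro a b hab
      have := hanti hab
      exact this
    obtain ⟨n, hn⟩ := hT _ hs (fun n => (e (g n)).1.2) x.1 x.2
    exact (e (g n)).2.2 hn

end Pool.Agent.Y666.SP
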