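import Pool.Agent.Y666.SP.Stm

/-!
# Project SP: the statements STAR, MP and SEL
-/

set_option autoImplicit false

namespace Pool.Agent.Y666.SP

theorem t_SEL (h1 : S_TREE) (h2 : S_ZORN) : S_SEL := by
  intro Φ _ ll hs
  have hreg : ∀ x, x ∈ Reg ll (∅ : Set Φ) ∅ := fun x =>
    ⟨fun l hl => (Set.notMem_empty l hl).elim, fun u hu => (Set.notMem_empty u hu).elim⟩
  obtain ⟨A, ⟨-, hA2, hA3⟩, hA4⟩ := h2 Φ ll hs ∅ ∅
    (fun L' U' _ _ hne => h1 Φ ll hs L' U' hne)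
  exact ⟨A, hA2, fun x => hA4 x (hreg x), fun g hg g' => hA3 g hg g' (hreg g')⟩

/-- the germ of a strictly decreasing sequence -/
def seqGerm {α : Type} [PartialOrder α] (s : ℕ → α) (hs : StrictAnti s) : Germ α where
  carrier := {y | ∃ n, s n ≤ y}
  nonempty := ⟨s 0, 0, le_rfl⟩
  up := fun _ ⟨n, hn⟩ _ hy => ⟨n, hn.trans hy⟩
  dir := by
    rintro x ⟨n, hn⟩ y ⟨m, hm⟩
    refine ⟨s (max n m + 1), ⟨_, le_rfl⟩, ?_, ?_⟩
    · exact lt_of_lt_of_le (hs (Nat.lt_succ_of_le (le_max_left n m))) hn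
    · exact lt_of_lt_of_le (hs (Nat.lt_succ_of_le (le_max_right n m))) hm

theorem gll_lle {α : Type} [PartialOrder α] {a b c : Germ α} (h1 : gll a b) (h2 : b ≤ c) :
    gll a c := by
  obtain ⟨p, hp, hq⟩ := h1
  exact ⟨p, hp, fun q hq' => hq q (h2 hq')⟩

theorem t_STAR : S_STAR := by
  intro α _ G hG s hs hsB x hxB hsame
  by_contra hcon
  have hcon' : ∀ n, ¬ s n ≤ x := fun n h => hcon ⟨n, h⟩
  set F := seqGerm s hs with hF
  have hxF : x ∉ F.carrier := fun ⟨n, hn⟩ => hcon' n hn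
  have hA : ∀ g ∈ G, x ∉ g.carrier → gll F g := by
    intro g hg hx
    have h0 : s 0 ∉ g.carrier := fun h => hx ((hsame 0 g hg).1 h)
    rcases hsB 0 g hg with h | h
    · exact (h0 h).elim
    · exact ⟨s 0, ⟨0, le_rfl⟩, h⟩
  have hB : ∀ g ∈ G, x ∈ g.carrier → g ≤ F := by
    intro g hg hx
    rintro y ⟨n, hn⟩
    exact g.up (s n) ((hsame n g hg).2 hx) y hn
  have hm := hG.mx F
  push Not at hm
  obtain ⟨l, hl, hl1, hl2⟩ := hm
  have hxl : x ∈ l.carrier := by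
    by_contra h
    exact hl2 (hA l hl h)
  have hlF : l ≤ F := hB l hl hxl
  have hne : l ≠ F := fun h => hxF (h ▸ hxl)
  have hlt : l < F := lt_of_le_of_ne hlF hne
  have hsw : ¬ ∀ h ∈ G, gll l h → gll F h := fun h => hl1 (hG.sw l hl F hlt h)
  push Not at hsw
  obtain ⟨h, hh, hlh, hFh⟩ := hsw
  have hxh : x ∈ h.carrier := by
    by_contra hx
    exact hFh (hA h hh hx)
  exact hl1 (gll_lle hlh (hB h hh hxh))

theorem t_MP : S_MP := by
  intro α _ G hG g hg s hs hsB hsg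
  set F := seqGerm s hs with hF
  have hgF : g ≤ F := by
    rintro y ⟨n, hn⟩
    exact g.up (s n) (hsg n) y hn
  by_cases heq : g = F
  · left
    intro z hz
    rw [heq] at hz
    exact hz
  by_cases hgl : gll g F
  · right
    obtain ⟨p, hp, hq⟩ := hgl
    exact ⟨p, hp, fun n => hq (s n) ⟨n, le_rfl⟩⟩
  exfalso
  have hlt : g < F := lt_of_le_of_ne hgF heq
  have hsw : ¬ ∀ h ∈ G, gll g h → gll F h := fun h => hgl (hG.sw g hg F hlt h)
  push Not at hsw
  obtain ⟨h, hh, hlh, hFh⟩ := hsw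
  have hall : ∀ n, s n ∈ h.carrier := by
    intro n
    rcases hsB n h hh with h1 | h1
    · exact h1
    · exact (hFh ⟨s n, ⟨n, le_rfl⟩, h1⟩).elim
  have hhF : h ≤ F := by
    rintro y ⟨n, hn⟩
    exact h.up (s n) (hall n) y hn
  exact hgl (gll_lle hlh hhF)

end Pool.Agent.Y666.SP
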