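import Pool.Agent.TH546.PC.Point
import Pool.Agent.H739K.All2

/-!
Wide polygons: the number of polygons of perimeter `2 n` and width at least `h` is at most
`K μ^(2n) / (h √n)`.
-/

set_option autoImplicit false
set_option maxHeartbeats 400000

namespace Pool.Agent.Y365.SP

open Pool.Agent.W870.Pg Pool.Agent.H924P Pool.Agent.H739K Pool.Agent.TH546.PC H981 Filter Topology
open Pool.Agent.H976R2 (Dir adm ins)

/-! ### weight of the polygons of height at least `i` -/

/-- the weight at height at least `i`, up to perimeter `2 n` -/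
noncomputable def U (n i : ℕ) : ℝ := ∑ j ∈ Finset.Icc 2 n,
    ((open Classical in (CanF (2 * j - 1)).filter (fun g => i ≤ ht g)).card : ℝ) * mu⁻¹ ^ (2 * j)

theorem U_le : ∃ C : ℝ, 0 ≤ C ∧ ∀ n i : ℕ, 1 ≤ i → U n i ≤ C / i := by
  classical
  have hmu := mu_pos
  have hmu1 : 1 ≤ mu := one_le_mu
  obtain ⟨K0, hK0, htail⟩ := tail
  obtain ⟨C1, hC1⟩ : ∃ C1 : ℝ, C1 = 38400 * mu ^ 15 := ⟨_, rfl⟩
  have hC10 : 0 ≤ C1 := by rw [hC1]; positivity
  refine ⟨16 * K0 + C1, by positivity, fun n i hi1 => ?_⟩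
  have hi0 : (0 : ℝ) < i := by
    have : 0 < i := by omega
    exact_mod_cast this
  by_cases hi : 8 ≤ i
  · obtain ⟨h, hh⟩ : ∃ h, h = (i - 6) / 2 := ⟨_, rfl⟩
    have h1 : U n i ≤ VV h (2 * n) := by
      unfold U VV
      have e : ∀ j ∈ Finset.Icc 2 n,
          (((CanF (2 * j - 1)).filter (fun g => i ≤ ht g)).card : ℝ) * mu⁻¹ ^ (2 * j) ≤
          ((VF h (2 * j - 1)).card : ℝ) * mu⁻¹ ^ (2 * j - 1) := by
        intro j hj
        rw [Finset.mem_Icc] at hj
        have h2 : ((CanF (2 * j - 1)).filter (fun g => i ≤ ht g)).card ≤ (VF h (2 * j - 1)).card := by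
          apply Finset.card_le_card
          intro g hg
          rw [Finset.mem_filter, mem_CanF] at hg
          rw [mem_VF]
          exact ⟨hg.1, by omega⟩
        have h3 : mu⁻¹ ^ (2 * j) ≤ mu⁻¹ ^ (2 * j - 1) := by
          apply pow_le_pow_of_le_one (by positivity) (inv_le_one_of_one_le₀ hmu1) (by omega)
        have h4 : (((CanF (2 * j - 1)).filter (fun g => i ≤ ht g)).card : ℝ) ≤
          ((VF h (2 * j - 1)).card : ℝ) := by exact_mod_cast h2
        exact mul_le_mul h4 h3 (pow_nonneg (inv_nonneg.mpr hmu.le) _) (Nat.cast_nonneg _)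
      refine le_trans (b := ∑ j ∈ Finset.Icc 2 n, ((VF h (2 * j - 1)).card : ℝ) *
        mu⁻¹ ^ (2 * j - 1)) (Finset.sum_le_sum (fun j hj => ?_)) ?_
      · convert e j hj
      have e2 : ∑ j ∈ Finset.Icc 2 n, ((VF h (2 * j - 1)).card : ℝ) * mu⁻¹ ^ (2 * j - 1) =
          ∑ m ∈ (Finset.Icc 2 n).image (fun j => 2 * j - 1), ((VF h m).card : ℝ) * mu⁻¹ ^ m := by
        rw [Finset.sum_image]
        intro a ha b hb hab
        rw [Finset.mem_coe, Finset.mem_Icc] at ha hb
        simp only at hab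
        omega
      rw [e2]
      apply Finset.sum_le_sum_of_subset_of_nonneg
      · intro m hm
        rw [Finset.mem_image] at hm
        obtain ⟨j, hj, rfl⟩ := hm
        rw [Finset.mem_Icc] at hj
        rw [Finset.mem_range]
        omega
      · intro m _ _
        exact mul_nonneg (Nat.cast_nonneg _) (pow_nonneg (inv_nonneg.mpr hmu.le) _)
    have h2 := VV_bound h (2 * n)
    have h3 : i ≤ 16 * h := by omega
    have h4 : (i : ℝ) ≤ 16 * h := by exact_mod_cast h3
    have h5 := VV_nonneg h (2 * n)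
    rw [le_div_iff₀ hi0]
    calc U n i * i ≤ VV h (2 * n) * (16 * h) := by
          exact mul_le_mul h1 h4 hi0.le h5
      _ = 16 * (h * VV h (2 * n)) := by ring
      _ ≤ 16 * (2400 * mu ^ 15) := by linarith
      _ = C1 := by rw [hC1]; ring
      _ ≤ _ := by linarith
  · push Not at hi
    have h1 : U n i ≤ 2 * K0 := by
      have h1 : U n i ≤ ∑ j ∈ Finset.Icc 2 n, 2 * Fp j := by
        unfold U
        apply Finset.sum_le_sum
        intro j hj
        rw [Finset.mem_Icc] at hj
        have h2 := nn_le_PP hj.1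
        have h3 : (((CanF (2 * j - 1)).filter (fun g => i ≤ ht g)).card : ℝ) ≤ nn j := by
          unfold nn
          exact_mod_cast Finset.card_le_card (Finset.filter_subset _ _)
        unfold Fp
        rw [inv_pow]
        have h4 : 0 < mu ^ (2 * j) := pow_pos hmu _
        calc (((CanF (2 * j - 1)).filter (fun g => i ≤ ht g)).card : ℝ) * (mu ^ (2 * j))⁻¹
            ≤ (2 * PP j) * (mu ^ (2 * j))⁻¹ := by
              apply mul_le_mul_of_nonneg_right (h3.trans h2) (by positivity)
          _ = _ := by ring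
      have h2 := htail 2 n le_rfl
      have h3 : K0 / Real.sqrt ((2 : ℕ) : ℝ) ≤ K0 := by
        apply div_le_self hK0
        rw [Real.one_le_sqrt]
        norm_num
      rw [← Finset.mul_sum] at h1
      linarith
    have h2 : (i : ℝ) ≤ 8 := by exact_mod_cast hi.le
    rw [le_div_iff₀ hi0]
    have h3 : U n i * i ≤ 2 * K0 * 8 := mul_le_mul h1 h2 hi0.le (by positivity)
    linarith

/-! ### the weight `min (bx, h)^2` -/

/-- the truncated square of the size of the box -/
def tr (h b : ℕ) : ℕ := (min b h) ^ 2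

/-- its version on words -/
noncomputable def ph (h : ℕ) : List Dir → ℝ := fun w => (tr h (bx w) : ℝ)

lemma tr_lip {h b b' : ℕ} (hb : b ≤ b') :
    (tr h b' : ℝ) - tr h b ≤ (b' - b) * (2 * (min b h : ℕ) + (b' - b)) := by
  unfold tr
  push_cast
  have hb' : (b : ℝ) ≤ b' := by exact_mod_cast hb
  rcases le_total b h with h1 | h1
  · have h2 : min (b : ℝ) h = b := min_eq_left (by exact_mod_cast h1)
    have h3 : min (b' : ℝ) h ≤ b' := min_le_left _ _
    have h4 : 0 ≤ min (b' : ℝ) h := le_min (Nat.cast_nonneg _) (Nat.cast_nonneg _)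
    rw [h2]
    have h5 : min (b' : ℝ) h ^ 2 ≤ (b' : ℝ) ^ 2 := by gcongr
    nlinarith
  · have h2 : min (b : ℝ) h = h := min_eq_right (by exact_mod_cast h1)
    have h3 : min (b' : ℝ) h = h := min_eq_right (by exact_mod_cast h1.trans hb)
    rw [h2, h3, sub_self]
    have h4 : (0 : ℝ) ≤ h := Nat.cast_nonneg _
    have h5 : 0 ≤ (b' : ℝ) - b := by linarith
    positivity

lemma tr_mono {h b b' : ℕ} (hb : b ≤ b') : tr h b ≤ tr h b' := by
  unfold tr
  have : min b h ≤ min b' h := by omega
  exact Nat.pow_le_pow_left this 2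

lemma nice_ph {h : ℕ} (hh : 1 ≤ h) (m : ℕ) (hm : 3 ≤ m) : Nice 48 m (ph h) where
  one_le := by
    intro w h1 _ _ _
    have h2 := F3x.bx_pos w (by omega)
    unfold ph tr
    have h3 : 1 ≤ min (bx w) h := by omega
    have h4 : 1 ≤ (min (bx w) h) ^ 2 := Nat.one_le_pow _ _ h3
    exact_mod_cast h4
  le := by
    intro w _ h2 _ _
    have h3 : bx w ≤ 4 * w.length := F3x.bx_le w
    have h4 : min (bx w) h ≤ 4 * (m + 4) := by omega
    have h5 : (tr h (bx w)) ≤ (4 * (m + 4)) ^ 2 := Nat.pow_le_pow_left h4 2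
    have h6 : ((tr h (bx w) : ℕ) : ℝ) ≤ ((4 * (m + 4)) ^ 2 : ℕ) := by exact_mod_cast h5
    unfold ph
    refine h6.trans ?_
    push_cast
    have h7 : (0 : ℝ) ≤ m := Nat.cast_nonneg _
    nlinarith [mul_nonneg h7 h7, mul_nonneg h7 (mul_nonneg h7 h7)]
  lip := by
    intro w h1 _ hs hq
    obtain ⟨hb1, hb2⟩ := BOX_proof w (by omega) hs hq
    have hbp := F3x.bx_pos w (by omega)
    have hbp'' : (1 : ℝ) ≤ (bx w : ℝ) := by exact_mod_cast hbp
    set b : ℝ := (bx w : ℝ) with hb
    have hbp' : (1 : ℝ) ≤ b := hbp''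
    have hnn : ∀ q ∈ adm w, 0 ≤ (bx (ins w q.1 q.2) : ℝ) - b := by
      intro q hq
      have : (bx w : ℝ) ≤ (bx (ins w q.1 q.2) : ℝ) := Nat.cast_le.mpr (hb1 q hq)
      rw [← hb] at this
      exact sub_nonneg.mpr this
    have hone : ∀ p ∈ adm w, (bx (ins w p.1 p.2) : ℝ) - b ≤ 6 * b := by
      intro p hp
      have h9 := Finset.single_le_sum hnn hp
      exact h9.trans hb2
    by_cases hc : bx w ≤ h
    · have hmin : ((min (bx w) h : ℕ) : ℝ) = b := by rw [min_eq_left hc]
      have hph : ph h w = b ^ 2 := by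
        unfold ph tr
        rw [min_eq_left hc]
        push_cast
        rfl
      rw [hph]
      calc ∑ p ∈ adm w, |ph h (ins w p.1 p.2) - b ^ 2|
          ≤ ∑ p ∈ adm w, ((bx (ins w p.1 p.2) : ℝ) - b) * (8 * b) := by
            apply Finset.sum_le_sum
            intro p hp
            have h2 := tr_mono (h := h) (hb1 p hp)
            have h3 := tr_lip (h := h) (hb1 p hp)
            have h4 : (tr h (bx w) : ℝ) ≤ tr h (bx (ins w p.1 p.2)) := by exact_mod_cast h2
            have h5 : (tr h (bx w) : ℝ) = b ^ 2 := hph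
            rw [hmin, h5] at h3
            rw [h5] at h4
            rw [abs_of_nonneg (by unfold ph; linarith)]
            have h6 := hone p hp
            have h7 := hnn p hp
            unfold ph
            refine h3.trans ?_
            apply mul_le_mul_of_nonneg_left _ h7
            linarith
        _ = (∑ p ∈ adm w, ((bx (ins w p.1 p.2) : ℝ) - b)) * (8 * b) := by rw [Finset.sum_mul]
        _ ≤ (6 * b) * (8 * b) := by
            apply mul_le_mul_of_nonneg_right hb2 (by linarith)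
        _ = 48 * b ^ 2 := by ring
    · push Not at hc
      have h0 : ∀ p ∈ adm w, |ph h (ins w p.1 p.2) - ph h w| = 0 := by
        intro p hp
        have h2 := hb1 p hp
        unfold ph tr
        rw [min_eq_right hc.le, min_eq_right (hc.le.trans h2), sub_self, abs_zero]
      rw [Finset.sum_congr rfl h0, Finset.sum_const_zero]
      have : (0 : ℝ) ≤ ph h w := by unfold ph; positivity
      linarith

/-! ### sums over loops -/

/-- the normalised weight of the polygons of perimeter `2 N` -/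
noncomputable def fh (h N : ℕ) : ℝ :=
  (∑ f ∈ LF (2 * N), (tr h (width (2 * N) f + height (2 * N) f) : ℝ)) / (4 * N) * mu⁻¹ ^ (2 * N)

lemma mm_eq {h N : ℕ} (hN : 2 ≤ N) : mm (ph h) (2 * N - 1) = 4 * mu ^ (2 * N) * (N * fh h N) := by
  have : NeZero (2 * N) := ⟨by omega⟩
  have h1 := (CONV_proof N hN).1
    (fun f => (tr h (width (2 * N) f + height (2 * N) f) : ℝ))
  have e : {f : ZMod (2 * N) → ℤ × ℤ | Pool.Agent.H924P.IsLoop (2 * N) f} =
      ((LF (2 * N) : Finset (ZMod (2 * N) → V)) : Set (ZMod (2 * N) → ℤ × ℤ)) := by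
    ext f
    rw [Finset.mem_coe, mem_LF]
    exact Iff.rfl
  rw [e, finsum_mem_coe_finset] at h1
  have h2 : mm (ph h) (2 * N - 1) = ∑ f ∈ LF (2 * N),
      (tr h (width (2 * N) f + height (2 * N) f) : ℝ) := by
    rw [h1]
    unfold mm ph
    refine Finset.sum_congr rfl fun w hw => ?_
    rw [F3x.bx_eq hN hw]
  rw [h2]
  unfold fh
  have hmu := mu_pos
  have hN0 : (0 : ℝ) < N := by
    have : 0 < N := by omega
    exact_mod_cast this
  rw [inv_pow]
  have h3 : mu ^ (2 * N) ≠ 0 := (pow_pos hmu _).ne'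
  field_simp

lemma fh_nonneg (h N : ℕ) : 0 ≤ fh h N := by
  have hmu := mu_pos
  unfold fh; positivity

lemma tr_add (h a b : ℕ) : tr h (a + b) ≤ 2 * tr h a + 2 * tr h b := by
  unfold tr
  have h1 : min (a + b) h ≤ min a h + min b h := by omega
  calc (min (a + b) h) ^ 2 ≤ (min a h + min b h) ^ 2 := Nat.pow_le_pow_left h1 2
    _ ≤ _ := by
      generalize min a h = x
      generalize min b h = y
      have : (0 : ℤ) ≤ ((x : ℤ) - y) ^ 2 := sq_nonneg _
      zify
      nlinarith

/-- the weight in terms of the lists -/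
lemma fh_le {h N : ℕ} (hN : 2 ≤ N) :
    fh h N ≤ 4 * ((∑ g ∈ CanF (2 * N - 1), (tr h (ht g) : ℝ)) * mu⁻¹ ^ (2 * N)) := by
  have : NeZero (2 * N) := ⟨by omega⟩
  have hmu := mu_pos
  have h1 := sum_loops_le (m := 2 * N) (by omega) (fun f => tr h (width (2 * N) f))
    (fun g => tr h (ht g)) (fun _ _ _ _ hw => tr_mono hw)
  have h2 : (∑ f ∈ LF (2 * N), tr h (height (2 * N) f)) = ∑ f ∈ LF (2 * N), tr h (width (2 * N) f) :=
    sum_swp (m := 2 * N) (fun f => tr h (width (2 * N) f))
  have h3 : ∑ f ∈ LF (2 * N), tr h (width (2 * N) f + height (2 * N) f) ≤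
      4 * ∑ f ∈ LF (2 * N), tr h (width (2 * N) f) := by
    calc _ ≤ ∑ f ∈ LF (2 * N), (2 * tr h (width (2 * N) f) + 2 * tr h (height (2 * N) f)) :=
          Finset.sum_le_sum (fun f _ => tr_add _ _ _)
      _ = _ := by
          rw [Finset.sum_add_distrib, ← Finset.mul_sum, ← Finset.mul_sum, h2]; ring
  have h4 : ∑ f ∈ LF (2 * N), tr h (width (2 * N) f + height (2 * N) f) ≤
      16 * N * ∑ g ∈ CanF (2 * N - 1), tr h (ht g) := by
    calc _ ≤ 4 * (2 * (2 * N) * ∑ g ∈ CanF (2 * N - 1), tr h (ht g)) := by omega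
      _ = _ := by ring
  have h5 : (∑ f ∈ LF (2 * N), (tr h (width (2 * N) f + height (2 * N) f) : ℝ)) ≤
      16 * N * ∑ g ∈ CanF (2 * N - 1), (tr h (ht g) : ℝ) := by
    exact_mod_cast h4
  have hN0 : (0 : ℝ) < N := by
    have : 0 < N := by omega
    exact_mod_cast this
  unfold fh
  rw [← mul_assoc]
  apply mul_le_mul_of_nonneg_right _ (by positivity)
  rw [div_le_iff₀ (by positivity)]
  calc _ ≤ _ := h5
    _ = _ := by ring

/-- squares as sums -/
lemma tr_sum (h b : ℕ) : tr h b = ∑ i ∈ Finset.Icc 1 h, if i ≤ b then 2 * i - 1 else 0 := by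
  induction h with
  | zero => simp [tr]
  | succ h ih =>
    rw [Finset.sum_Icc_succ_top (by omega), ← ih]
    unfold tr
    split_ifs with h1
    · rw [min_eq_right h1, min_eq_right (by omega)]
      have : (h + 1) ^ 2 = h ^ 2 + 2 * h + 1 := by ring
      omega
    · rw [min_eq_left (by omega), min_eq_left (by omega)]
      rfl

/-- **the sum of the weights** -/
theorem sum_fh : ∃ C : ℝ, 0 ≤ C ∧ ∀ h n : ℕ, ∑ j ∈ Finset.Icc 2 n, fh h j ≤ C * h := by
  classical
  obtain ⟨C, hC, hU⟩ := U_le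
  have hmu := mu_pos
  refine ⟨8 * C, by positivity, fun h n => ?_⟩
  calc ∑ j ∈ Finset.Icc 2 n, fh h j
      ≤ ∑ j ∈ Finset.Icc 2 n, 4 * ((∑ g ∈ CanF (2 * j - 1), (tr h (ht g) : ℝ)) * mu⁻¹ ^ (2 * j)) :=
        Finset.sum_le_sum (fun j hj => fh_le (Finset.mem_Icc.mp hj).1)
    _ = 4 * ∑ j ∈ Finset.Icc 2 n, ∑ i ∈ Finset.Icc 1 h, ((2 * i - 1 : ℕ) : ℝ) *
          ((((CanF (2 * j - 1)).filter (fun g => i ≤ ht g)).card : ℝ) * mu⁻¹ ^ (2 * j)) := by
        rw [← Finset.mul_sum]
        congr 1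
        apply Finset.sum_congr rfl
        intro j _
        have e : ∑ g ∈ CanF (2 * j - 1), (tr h (ht g) : ℝ) = ∑ i ∈ Finset.Icc 1 h,
            ((2 * i - 1 : ℕ) : ℝ) * (((CanF (2 * j - 1)).filter (fun g => i ≤ ht g)).card : ℝ) := by
          have e1 : ∀ g ∈ CanF (2 * j - 1), (tr h (ht g) : ℝ) = ∑ i ∈ Finset.Icc 1 h,
              if i ≤ ht g then ((2 * i - 1 : ℕ) : ℝ) else 0 := by
            intro g _
            rw [tr_sum]
            push_cast
            apply Finset.sum_congr rfl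
            intro i _
            split_ifs <;> rfl
          rw [Finset.sum_congr rfl e1, Finset.sum_comm]
          apply Finset.sum_congr rfl
          intro i _
          rw [← Finset.sum_filter, Finset.sum_const, nsmul_eq_mul, mul_comm]
        rw [e, Finset.sum_mul]
        apply Finset.sum_congr rfl
        intro i _
        ring
    _ = 4 * ∑ i ∈ Finset.Icc 1 h, ((2 * i - 1 : ℕ) : ℝ) * U n i := by
        rw [Finset.sum_comm]
        congr 1
        apply Finset.sum_congr rfl
        intro i _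
        rw [← Finset.mul_sum]
        unfold U
        congr! 2
    _ ≤ 4 * ∑ i ∈ Finset.Icc 1 h, 2 * C := by
        apply mul_le_mul_of_nonneg_left _ (by norm_num)
        apply Finset.sum_le_sum
        intro i hi
        rw [Finset.mem_Icc] at hi
        have hi0 : (0 : ℝ) < i := by
          have : 0 < i := by omega
          exact_mod_cast this
        have h1 := hU n i hi.1
        have h2 : ((2 * i - 1 : ℕ) : ℝ) ≤ 2 * i := by
          have : 2 * i - 1 ≤ 2 * i := by omega
          exact_mod_cast this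
        calc ((2 * i - 1 : ℕ) : ℝ) * U n i ≤ ((2 * i - 1 : ℕ) : ℝ) * (C / i) := by gcongr
          _ ≤ (2 * i) * (C / i) := by gcongr
          _ = 2 * C := by field_simp
    _ = _ := by
        rw [Finset.sum_const, Nat.card_Icc, nsmul_eq_mul]
        push_cast [Nat.add_sub_cancel]
        ring

end Pool.Agent.Y365.SP
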