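import Pool.Agent.Y365.SP.Wide

/-!
Wide polygons, pointwise bound.
-/

set_option autoImplicit false
set_option maxHeartbeats 400000

namespace Pool.Agent.Y365.SP

open Pool.Agent.W870.Pg Pool.Agent.H924P Pool.Agent.H739K Pool.Agent.TH546.PC H981 Filter Topology
open Pool.Agent.H976R2 (Dir)

/-- the normalised weight of the rooted polygons of perimeter `2 N` -/
noncomputable def gh (h N : ℕ) : ℝ := N * fh h N

lemma gh_pos {h N : ℕ} (hh : 1 ≤ h) (hN : 2 ≤ N) : 0 < gh h N := by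
  have h1 := card_KP_pos hN
  have h2 := RATIO.card_le_mm (nice_ph hh (2 * N - 1) (by omega)) (le_refl (2 * N - 1)) (by omega)
  have h3 := mm_eq (h := h) hN
  have h4 : 0 < 4 * mu ^ (2 * N) := by have := mu_pos; positivity
  have h5 : 0 < 4 * mu ^ (2 * N) * (N * fh h N) := by rw [← h3]; linarith
  exact pos_of_mul_pos_right h5 h4.le

/-- almost log-convexity, uniformly in `h` -/
lemma gh_conv : ∃ D : ℝ, 1 ≤ D ∧ ∀ h m : ℕ, 1 ≤ h → 2 ≤ m →
    gh h (m + 1) ^ 2 ≤ gh h m * gh h (m + 2) + D / m * gh h m ^ 2 := by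
  obtain ⟨D, hD, hR⟩ := RATIO_proof bnd 48 (by norm_num)
  refine ⟨max D 1, le_max_right _ _, fun h m hh hm => ?_⟩
  have hmu := mu_pos
  have hmu1 : 1 ≤ mu := one_le_mu
  have hcard : ∀ N : ℕ, 2 ≤ N → mm (ph h) (2 * N - 1) = 4 * mu ^ (2 * N) * gh h N :=
    fun N hN => mm_eq hN
  have h1 := hR (2 * m - 1) (ph h) (by omega) (by omega) (nice_ph hh _ (by omega))
  have e1 : 2 * m - 1 + 2 = 2 * (m + 1) - 1 := by omega
  have e2 : 2 * m - 1 + 4 = 2 * (m + 2) - 1 := by omega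
  rw [e1, e2, hcard m hm, hcard (m + 1) (by omega), hcard (m + 2) (by omega)] at h1
  have hm0 : (0 : ℝ) < m := by
    have : 0 < m := by omega
    exact_mod_cast this
  have h2 : D / ((2 * m - 1 : ℕ) : ℝ) ≤ max D 1 / m := by
    have h3 : (m : ℝ) ≤ ((2 * m - 1 : ℕ) : ℝ) := by
      have : m ≤ 2 * m - 1 := by omega
      exact_mod_cast this
    exact div_le_div₀ (by positivity) (le_max_left _ _) hm0 h3
  have hG := gh_pos hh hm
  set P := mu ^ (2 * m) with hP
  have hP0 : 0 < P := pow_pos hmu _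
  have e3 : mu ^ (2 * (m + 1)) = P * mu ^ 2 := by rw [hP, ← pow_add]; congr 1
  have e4 : mu ^ (2 * (m + 2)) = P * mu ^ 4 := by rw [hP, ← pow_add]; congr 1
  rw [e3, e4] at h1
  have hmu4 : 1 ≤ mu ^ 4 := one_le_pow₀ hmu1
  have hc : 0 ≤ max D 1 / (m : ℝ) := by positivity
  have h4 : 16 * P ^ 2 * mu ^ 4 * gh h (m + 1) ^ 2 ≤
      16 * P ^ 2 * mu ^ 4 * (gh h m * gh h (m + 2) + max D 1 / m * gh h m ^ 2) := by
    calc 16 * P ^ 2 * mu ^ 4 * gh h (m + 1) ^ 2 = (4 * (P * mu ^ 2) * gh h (m + 1)) ^ 2 := by ring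
      _ ≤ 4 * P * gh h m * (4 * (P * mu ^ 4) * gh h (m + 2)) +
          D / ((2 * m - 1 : ℕ) : ℝ) * (4 * P * gh h m) ^ 2 := h1
      _ ≤ 4 * P * gh h m * (4 * (P * mu ^ 4) * gh h (m + 2)) +
          max D 1 / m * (4 * P * gh h m) ^ 2 := by gcongr
      _ = 16 * P ^ 2 * mu ^ 4 * (gh h m * gh h (m + 2)) +
          16 * P ^ 2 * 1 * (max D 1 / m * gh h m ^ 2) := by ring
      _ ≤ 16 * P ^ 2 * mu ^ 4 * (gh h m * gh h (m + 2)) +
          16 * P ^ 2 * mu ^ 4 * (max D 1 / m * gh h m ^ 2) := by gcongr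
      _ = _ := by ring
  exact le_of_mul_le_mul_left h4 (by positivity)

/-- the ratios are eventually at least `1/2`, uniformly in `h` -/
lemma gh_ratio : ∃ N0 : ℕ, 2 ≤ N0 ∧ ∀ h m : ℕ, 1 ≤ h → N0 ≤ m → gh h m ≤ 2 * gh h (m + 1) := by
  obtain ⟨C, hC⟩ := main' 48 (by norm_num)
  have hlim := pow_mul_rN (β := 0) (by norm_num)
  have hev : ∀ᶠ m : ℕ in atTop, (m : ℝ) ^ (0 : ℝ) * rN m < 1 / (2 * (|C| + 1)) :=
    hlim.eventually (gt_mem_nhds (by positivity))
  obtain ⟨n0, hn0⟩ := eventually_atTop.mp hev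
  refine ⟨max 2 n0, le_max_left _ _, fun h m hh hm => ?_⟩
  have hm2 : 2 ≤ m := (le_max_left _ _).trans hm
  have hmn : n0 ≤ m := (le_max_right _ _).trans hm
  have h1 := hn0 (2 * m - 1) (by omega)
  rw [Real.rpow_zero, one_mul] at h1
  have h2 := hC (2 * m - 1) (ph h) (by omega) (by omega) (fun k hk _ _ => nice_ph hh k hk)
  have hrt : rt (2 * m - 1) = rN (2 * m - 1) := rfl
  rw [hrt] at h2
  have hr0 : 0 ≤ rN (2 * m - 1) := Real.sqrt_nonneg _
  have h3 : C * rN (2 * m - 1) ≤ 1 / 2 := by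
    calc C * rN (2 * m - 1) ≤ |C| * rN (2 * m - 1) := by gcongr; exact le_abs_self C
      _ ≤ |C| * (1 / (2 * (|C| + 1))) := by gcongr
      _ ≤ 1 / 2 := by
        rw [mul_one_div, div_le_div_iff₀ (by positivity) (by norm_num)]
        linarith [abs_nonneg C]
  have e1 : 2 * m - 1 + 2 = 2 * (m + 1) - 1 := by omega
  rw [e1, mm_eq hm2, mm_eq (show 2 ≤ m + 1 by omega)] at h2
  have hmu := mu_pos
  have hG := gh_pos hh hm2
  have h4 : 4 * mu ^ (2 * (m + 1)) * (((m + 1 : ℕ) : ℝ) * fh h (m + 1)) /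
      (mu ^ 2 * (4 * mu ^ (2 * m) * (m * fh h m))) = gh h (m + 1) / gh h m := by
    have h5 : mu ^ (2 * (m + 1)) = mu ^ (2 * m) * mu ^ 2 := by rw [← pow_add]; congr 1
    rw [h5]
    change 4 * (mu ^ (2 * m) * mu ^ 2) * gh h (m + 1) / (mu ^ 2 * (4 * mu ^ (2 * m) * gh h m)) = _
    have h6 : mu ^ (2 * m) ≠ 0 := (pow_pos hmu _).ne'
    have h7 : mu ^ 2 ≠ 0 := (pow_pos hmu _).ne'
    have h8 : gh h m ≠ 0 := hG.ne'
    field_simp
  rw [h4] at h2
  have h5 := (abs_le.mp (h2.trans h3)).1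
  have h6 : 1 / 2 ≤ gh h (m + 1) / gh h m := by linarith
  rw [div_le_div_iff₀ (by norm_num) hG] at h6
  linarith

/-- **the pointwise bound for the weights** -/
theorem point_fh : ∃ K : ℝ, 0 ≤ K ∧ ∀ h n : ℕ, 1 ≤ h → 2 ≤ n → fh h n ≤ K * h / Real.sqrt n := by
  obtain ⟨C, hC0, hsumC⟩ := sum_fh
  obtain ⟨D0, hD0, hconv⟩ := gh_conv
  obtain ⟨N0, hN0, hratio⟩ := gh_ratio
  obtain ⟨D, hD⟩ : ∃ D : ℝ, D = 4 * D0 := ⟨_, rfl⟩
  have hD1 : 1 ≤ D := by rw [hD]; linarith
  obtain ⟨M0, hM0⟩ : ∃ M0 : ℕ, M0 = max (2 * N0 + 4) ⌈64 * D⌉₊ := ⟨_, rfl⟩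
  refine ⟨C * M0 + 32 * C * D, by positivity, fun h n hh hn => ?_⟩
  have hh0 : (0 : ℝ) ≤ h := Nat.cast_nonneg _
  have hn0 : (0 : ℝ) < n := by
    have : 0 < n := by omega
    exact_mod_cast this
  have hsn : 0 < Real.sqrt n := Real.sqrt_pos.mpr hn0
  by_cases hc : n < M0
  · have h1 : fh h n ≤ C * h := by
      refine le_trans ?_ (hsumC h n)
      exact Finset.single_le_sum (f := fun j => fh h j) (fun j _ => fh_nonneg h j)
        (Finset.mem_Icc.mpr ⟨hn, le_rfl⟩)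
    rw [le_div_iff₀ hsn]
    have h2 : Real.sqrt n ≤ M0 := by
      have h3 : (n : ℝ) ≤ M0 := by exact_mod_cast hc.le
      have h4 : (1 : ℝ) ≤ M0 := by
        have : 1 ≤ M0 := by omega
        exact_mod_cast this
      rw [Real.sqrt_le_left (by linarith)]
      nlinarith
    have h3 : fh h n * Real.sqrt n ≤ C * h * M0 := mul_le_mul h1 h2 hsn.le (by positivity)
    have h4 : 0 ≤ 32 * C * D * h := by positivity
    nlinarith
  push Not at hc
  have hnN0 : 2 * N0 + 4 ≤ n := (le_max_left _ _).trans (hM0 ▸ hc)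
  have hn64 : 64 * D ≤ n := by
    have h1 : ⌈64 * D⌉₊ ≤ n := (le_max_right _ _).trans (hM0 ▸ hc)
    exact (Nat.le_ceil _).trans (by exact_mod_cast h1)
  -- the window
  obtain ⟨κ, hκ⟩ : ∃ κ : ℕ, κ = ⌊Real.sqrt (n / (16 * D))⌋₊ := ⟨_, rfl⟩
  have hκ1 : (κ : ℝ) ≤ Real.sqrt (n / (16 * D)) := by rw [hκ]; exact Nat.floor_le (by positivity)
  have hκ2 : Real.sqrt (n / (16 * D)) < κ + 1 := by rw [hκ]; exact Nat.lt_floor_add_one _
  have hsq2 : (2 : ℝ) ≤ Real.sqrt (n / (16 * D)) := by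
    apply Real.le_sqrt_of_sq_le
    rw [le_div_iff₀ (by positivity)]
    linarith
  have hκ3 : Real.sqrt (n / (16 * D)) / 2 ≤ κ := by linarith
  have hκsq : (κ : ℝ) ^ 2 ≤ n / (16 * D) := by
    calc (κ : ℝ) ^ 2 ≤ Real.sqrt (n / (16 * D)) ^ 2 := by gcongr
      _ = n / (16 * D) := Real.sq_sqrt (by positivity)
  have hκn : 16 * D * (κ : ℝ) ^ 2 ≤ n := by
    rw [le_div_iff₀ (by positivity)] at hκsq
    linarith
  have hκ2n : 2 * κ ≤ n := by
    have h1 : (κ : ℝ) ≤ κ ^ 2 := by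
      have h2 : κ ≤ κ ^ 2 := Nat.le_self_pow (by norm_num) κ
      exact_mod_cast h2
    have h3 : (2 : ℝ) * κ ≤ n := by nlinarith
    exact_mod_cast h3
  -- the sequence
  have hpair : ∀ k, k ∈ Finset.Icc 1 κ → fh h n / 2 ≤ fh h (n + k) + fh h (n - k) := by
    intro k hk
    rw [Finset.mem_Icc] at hk
    have hkκ : (k : ℝ) ≤ κ := by exact_mod_cast hk.2
    have hkn : 16 * D * (k : ℝ) ^ 2 ≤ n := by
      refine le_trans ?_ hκn
      gcongr
    have h1 := almost_convex (g := gh h) (D := D) hD1 (N := n) (k := k)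
      (fun m hm => gh_pos hh (by omega)) (fun m hm => by
        refine (hconv h m hh (by omega)).trans ?_
        have h2 : D0 / (m : ℝ) ≤ D / n := by
          rw [hD]
          have hm0 : (0 : ℝ) < m := by
            have : 0 < m := by omega
            exact_mod_cast this
          rw [div_le_div_iff₀ hm0 hn0]
          have h3 : n ≤ 4 * m := by omega
          have h4 : (n : ℝ) ≤ 4 * m := by exact_mod_cast h3
          nlinarith
        gcongr) (fun m hm => hratio h m hh (by omega)) (by omega)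
      (by
        have : 0 ≤ D * (k : ℝ) ^ 2 := by positivity
        linarith) (by omega)
    have h2 : (1 : ℝ) / 2 ≤ 1 - 8 * D * (k : ℝ) ^ 2 / n := by
      have : 8 * D * (k : ℝ) ^ 2 / n ≤ 1 / 2 := by
        rw [div_le_div_iff₀ hn0 (by norm_num)]
        linarith
      linarith
    have hG := gh_pos hh hn
    have hGa := gh_pos (N := n + k) hh (by omega)
    have hGb := gh_pos (N := n - k) hh (by omega)
    have h3 : gh h n ^ 2 / 2 ≤ gh h (n + k) * gh h (n - k) := by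
      refine le_trans ?_ h1
      have : gh h n ^ 2 / 2 = 1 / 2 * gh h n ^ 2 := by ring
      rw [this]
      gcongr
    have h4 : gh h n ≤ gh h (n + k) + gh h (n - k) := by
      nlinarith [sq_nonneg (gh h (n + k) - gh h (n - k))]
    have hFa := fh_nonneg h (n + k)
    have hFb := fh_nonneg h (n - k)
    have h5 : gh h (n + k) ≤ 2 * n * fh h (n + k) := by
      unfold gh
      have : ((n + k : ℕ) : ℝ) ≤ 2 * n := by
        have : n + k ≤ 2 * n := by omega
        exact_mod_cast this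
      gcongr
    have h6 : gh h (n - k) ≤ 2 * n * fh h (n - k) := by
      unfold gh
      have : ((n - k : ℕ) : ℝ) ≤ 2 * n := by
        have : n - k ≤ 2 * n := by omega
        exact_mod_cast this
      gcongr
    have h7 : n * fh h n ≤ n * (2 * (fh h (n + k) + fh h (n - k))) := by
      calc n * fh h n = gh h n := rfl
        _ ≤ _ := h4
        _ ≤ _ := by linarith
    have h8 := le_of_mul_le_mul_left h7 hn0
    linarith
  have hsum : κ * (fh h n / 2) ≤ ∑ k ∈ Finset.Icc 1 κ, (fh h (n + k) + fh h (n - k)) := by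
    calc κ * (fh h n / 2) = ∑ k ∈ Finset.Icc 1 κ, fh h n / 2 := by
          rw [Finset.sum_const, Nat.card_Icc, nsmul_eq_mul, Nat.add_sub_cancel]
      _ ≤ _ := Finset.sum_le_sum hpair
  rw [Finset.sum_add_distrib] at hsum
  have ht := hsumC h (n + κ)
  have ha : ∑ k ∈ Finset.Icc 1 κ, fh h (n + k) ≤ ∑ j ∈ Finset.Icc 2 (n + κ), fh h j := by
    have e : ∑ k ∈ Finset.Icc 1 κ, fh h (n + k) =
        ∑ j ∈ (Finset.Icc 1 κ).image (fun k => n + k), fh h j := by
      rw [Finset.sum_image]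
      intro a _ b _ hab
      simpa using hab
    rw [e]
    apply Finset.sum_le_sum_of_subset_of_nonneg
    · intro j hj
      rw [Finset.mem_image] at hj
      obtain ⟨k, hk, rfl⟩ := hj
      rw [Finset.mem_Icc] at hk ⊢
      omega
    · intro j _ _
      exact fh_nonneg h j
  have hb : ∑ k ∈ Finset.Icc 1 κ, fh h (n - k) ≤ ∑ j ∈ Finset.Icc 2 (n + κ), fh h j := by
    have e : ∑ k ∈ Finset.Icc 1 κ, fh h (n - k) =
        ∑ j ∈ (Finset.Icc 1 κ).image (fun k => n - k), fh h j := by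
      rw [Finset.sum_image]
      intro a ha b hb hab
      rw [Finset.mem_coe, Finset.mem_Icc] at ha hb
      simp only at hab
      omega
    rw [e]
    apply Finset.sum_le_sum_of_subset_of_nonneg
    · intro j hj
      rw [Finset.mem_image] at hj
      obtain ⟨k, hk, rfl⟩ := hj
      rw [Finset.mem_Icc] at hk ⊢
      omega
    · intro j _ _
      exact fh_nonneg h j
  have h1 : κ * (fh h n / 2) ≤ 2 * (C * h) := by linarith
  have h2 : Real.sqrt n / (8 * Real.sqrt D) ≤ κ := by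
    refine le_trans (le_of_eq ?_) hκ3
    rw [Real.sqrt_div hn0.le, Real.sqrt_mul (by norm_num)]
    have : Real.sqrt 16 = 4 := by
      rw [show (16 : ℝ) = 4 ^ 2 by norm_num, Real.sqrt_sq (by norm_num)]
    rw [this]
    field_simp
    norm_num
  have hsD : Real.sqrt D ≤ D := by
    rw [Real.sqrt_le_left (by linarith)]
    nlinarith
  have hsD0 : 0 < Real.sqrt D := Real.sqrt_pos.mpr (by linarith)
  have hF := fh_nonneg h n
  have h3 : Real.sqrt n / (8 * Real.sqrt D) * (fh h n / 2) ≤ 2 * (C * h) := by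
    refine le_trans ?_ h1
    gcongr
  have h4 : fh h n * Real.sqrt n ≤ 32 * C * h * Real.sqrt D := by
    have e : Real.sqrt n / (8 * Real.sqrt D) * (fh h n / 2) =
        fh h n * Real.sqrt n / (16 * Real.sqrt D) := by
      field_simp
      ring
    rw [e, div_le_iff₀ (by positivity)] at h3
    linarith
  rw [le_div_iff₀ hsn]
  have h5 : 32 * C * h * Real.sqrt D ≤ 32 * C * h * D := by gcongr
  have h6 : 0 ≤ C * M0 * h := by positivity
  nlinarith

/-- **wide polygons** -/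
theorem wide : ∃ K : ℝ, 0 ≤ K ∧ ∀ n h : ℕ, 2 ≤ n → 1 ≤ h →
    (((open Classical in (LF (2 * n)).filter
      (fun f => h ≤ width (2 * n) f + height (2 * n) f)).card : ℕ) : ℝ) / (4 * n) ≤
      K / (h * Real.sqrt n) * mu ^ (2 * n) := by
  classical
  obtain ⟨K, hK, hp⟩ := point_fh
  refine ⟨K, hK, fun n h hn hh => ?_⟩
  have hmu := mu_pos
  have hn0 : (0 : ℝ) < n := by
    have : 0 < n := by omega
    exact_mod_cast this
  have hh0 : (0 : ℝ) < h := by exact_mod_cast hh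
  have hsn : 0 < Real.sqrt n := Real.sqrt_pos.mpr hn0
  have h1 := hp h n hh hn
  have h2 : (h : ℝ) ^ 2 * (((LF (2 * n)).filter
      (fun f => h ≤ width (2 * n) f + height (2 * n) f)).card : ℝ) ≤
      ∑ f ∈ LF (2 * n), (tr h (width (2 * n) f + height (2 * n) f) : ℝ) := by
    rw [mul_comm, ← nsmul_eq_mul, ← Finset.sum_const, Finset.sum_filter]
    apply Finset.sum_le_sum
    intro f _
    split_ifs with hf
    · unfold tr
      rw [min_eq_right hf]
      push_cast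
      exact le_rfl
    · positivity
  unfold fh at h1
  have h3 : 0 < mu ^ (2 * n) := pow_pos hmu _
  rw [inv_pow, ← div_eq_mul_inv, div_le_iff₀ h3] at h1
  have h4 : (h : ℝ) ^ 2 * (((((LF (2 * n)).filter
      (fun f => h ≤ width (2 * n) f + height (2 * n) f)).card : ℕ) : ℝ) / (4 * n)) ≤
      K * h / Real.sqrt n * mu ^ (2 * n) := by
    refine le_trans ?_ h1
    rw [← mul_div_assoc]
    gcongr
  have h5 : (h : ℝ) ^ 2 * (K / (h * Real.sqrt n) * mu ^ (2 * n)) =
      K * h / Real.sqrt n * mu ^ (2 * n) := by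
    field_simp
  rw [← h5] at h4
  have h6 := le_of_mul_le_mul_left h4 (by positivity)
  convert h6

end Pool.Agent.Y365.SP
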